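import Pool.Agent.AFJ.Stmts
import Pool.Agent.ABY.Stmts
import Pool.Agent.LE.StmtsQG
import Pool.Agent.LTG.Defs

/-!
# The block lemma FLO of AND2B: data, hypotheses, conclusion

One block `b` of running sites runs for the time `T` (small against the absorption `κ`). Everything is
local: `Q1` are the targets (the nodes within the range of `b`), `Q` is a larger box of nodes, `Rg` the
running sites, `R = Rg ∩ Q`. The conclusion (`Good`) holds with a probability close to one: the entries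
change by at most `δ`, `Λ_x = ∑_{y ∈ R} |G_xy|⁴` grows by at most `ω L`, the virtual pair of block Y
changes by at most `δY`, and the form `E` follows the ladder up to `2 ε₁ E` for all functions
supported in `Q`.
-/

set_option autoImplicit false

open MeasureTheory ProbabilityTheory

open scoped BigOperators Matrix

noncomputable section

namespace Pool.Agent.AFL

open Pool.Agent.LE.QF Pool.Agent.AFJ Pool.Agent.ABY

/-- the data of the block lemma -/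
structure Fl (X : Type) [Fintype X] [DecidableEq X] extends Blk X where
  /-- the time -/
  T : ℝ
  /-- the nodes -/
  A : Finset X
  /-- the box -/
  Q : Finset X
  /-- the targets -/
  Q1 : Finset X
  /-- the running sites -/
  Rg : Finset X
  /-- the running sites which are not yet processed (block Y) -/
  U : Finset X
  /-- the young nodes (all nodes of the box which are not behind a shell of frozen nodes) -/
  Yg : Finset X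
  /-- clock minus final clock (block Y) -/
  P0 : X → ℝ
  /-- the weights of block Y -/
  w : X → ℝ
  /-- lower bound of the absorption at the running sites -/
  κv : ℝ
  /-- upper bound of `Im G_xx` -/
  r : ℝ
  /-- the mismatch is at most `N δ` at the start -/
  N : ℝ
  /-- allowed change of the entries -/
  δ : ℝ
  /-- upper bound of `Λ_x` -/
  L : ℝ
  /-- allowed relative change of `Λ_x` -/
  ω : ℝ
  /-- white error of the lower bound of the form, running sites -/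
  ε : ℝ
  /-- smooth part of the inverse of the form on the young nodes of `Q` -/
  s1 : ℝ
  /-- the same for the old nodes, and the flux from the block to the old nodes (tiny) -/
  s3 : ℝ
  old : ℝ
  /-- smooth part of the inverse of the form on the running sites of `Q` -/
  s2 : ℝ
  /-- allowed relative error of the form -/
  ε₁ : ℝ
  /-- allowed change of the pair of block Y -/
  δY : ℝ
  /-- auxiliary numbers for `Λ` -/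
  z : ℝ
  L0 : ℝ
  /-- exponents of the functional -/
  n : ℕ
  nL : ℕ

namespace Fl

variable {X : Type} [Fintype X] [DecidableEq X] (F : Fl X)

/-- the imaginary part of the gauge -/
def g (x : X) : ℝ := (F.mb x).im

/-- the running sites in the box -/
def R : Finset X := F.Rg ∩ F.Q

/-- the resolvent at the time `r.1`, potential `r.2` -/
def Gt (r : ℝ × (F.b → ℝ)) : Matrix X X ℂ := F.toBlk.G r

/-- the absorption -/
def k (t : ℝ) (x : X) : ℝ := F.toBlk.kp t x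

/-- the resolvent at the start -/
def G0 : Matrix X X ℂ := F.Gt (0, 0)

/-- the form at the time `r.1`, potential `r.2` -/
def Et (r : ℝ × (F.b → ℝ)) : Matrix X X ℝ := EE (F.Gt r) (F.k r.1) F.A

/-- the form at the start -/
def E0 : Matrix X X ℝ := EE F.G0 (F.k 0) F.A

/-- the resistances of the ladder at the time `t` -/
def lam (t : ℝ) (x : X) : ℝ := if x ∈ F.b then 1 / F.g x * (1 / F.k t x - 1 / F.k 0 x) else 0

/-- the virtual clocks at the time `t` -/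
def Pf (t : ℝ) (x : X) : ℝ := F.P0 x - ind F.b x * t

/-- the mismatch during the run -/
def μs : ℝ := (F.N + 1) * F.δ

/-- `qf K u ≤ aK ∑ u² + C₀² s2 (∑ |u|)²` during the run; `κ * aK` is small -/
def aK (C₀ : ℝ) : ℝ := ((F.N + 1) * F.δ + F.ε * C₀ + 4 * F.ε₁ * F.r) / F.κv

/-- additive part of the drift of `Λ / (ω L)` -/
def sg (C₀ : ℝ) : ℝ := C₀ ^ 2 * F.s2 * (F.r / F.κv) ^ 2 / (F.ω * F.L)

/-- the noise of the form -/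
def nu (c₀ : ℝ) : ℝ :=
  2 * (2 / c₀ * (8 * Real.sqrt (F.r * F.L / F.κv)) + 8 * F.r * F.s1 / F.κv +
    8 * F.old * F.s3 / F.κv)

/-- the noise and the drift of the pair of block Y -/
def yn (C : ℝ) : ℝ := C * Real.sqrt (F.L / F.κv)

def yd (C : ℝ) : ℝ := C * (F.μs / F.κv + Real.sqrt (Real.sqrt (F.L / F.κv)) / Real.sqrt F.κv)

/-- the rates of the four parts of the functional -/
def aG : ℝ := 4 * F.n * (F.μs * F.r / F.κv) / F.δ + 8 * F.n ^ 2 * F.L / F.δ ^ 2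

def aL (C₀ : ℝ) : ℝ :=
  6 * F.nL ^ 2 * (1 / F.κv) * (1 / Real.sqrt F.L0 + F.κv * (16 * F.aK C₀ + 2 * F.z))

def aY (C : ℝ) : ℝ := 4 * F.n * F.yd C / F.δY + 8 * F.n ^ 2 * F.yn C / F.δY ^ 2

def aS (c₀ : ℝ) : ℝ :=
  4 * F.n * (2 * ((2 * ((F.N + 2) * F.δ) + 4 * F.μs) / F.κv)) / F.ε₁ +
    8 * F.n ^ 2 * F.nu c₀ / F.ε₁ ^ 2 + 8 * F.n * (4 * F.r / F.κv)

/-- the total rate -/
def rt (c₀ C₀ C : ℝ) : ℝ := F.aG + F.aL C₀ + 2 * F.aY C + F.aS c₀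

/-- the number of the terms of the functional -/
def cd : ℝ := (F.Q1.card : ℝ) ^ 2 + 3 * F.Q1.card + F.Q.card

/-- the bound for the probability -/
def pr (c₀ C₀ C : ℝ) : ℝ :=
  3 * Real.exp (3 * (F.rt c₀ C₀ C * F.T)) *
    (F.Q1.card * (1 / (1 + F.ω)) ^ F.nL + F.rt c₀ C₀ C * F.T * (F.cd * (1 / 4) ^ F.n))

/-- the hypotheses -/
structure Ok (c₀ C₀ : ℝ) : Prop where
  sym : ∀ x y, F.H x y = F.H y x
  hT : 0 < F.T
  pos : ∀ t x, 0 ≤ t → t ≤ F.T → 0 < F.k t x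
  hb : F.b ⊆ F.U ∧ F.U ⊆ F.Rg ∧ F.Rg ⊆ F.A
  hQ : F.b ⊆ F.Q1 ∧ F.Q1 ⊆ F.Q ∧ F.Q ⊆ F.A
  hv : ∀ x ∈ F.Rg, F.κv ≤ F.k F.T x
  hg : ∀ x ∈ F.A, c₀ ≤ F.g x ∧ F.g x ≤ C₀
  /-- the mismatch at the start -/
  hmu : ∀ x ∈ F.Rg, ‖F.G0 x x - F.mb x‖ ≤ F.N * F.δ
  him : ∀ x ∈ F.Q, (F.G0 x x).im + F.δ ≤ F.r
  hL : ∀ x ∈ F.Q1, LaR F.G0 F.R x ≤ F.L / 2
  /-- locality, for all potentials -/
  loc : ∀ r : ℝ × (F.b → ℝ), 0 ≤ r.1 → r.1 ≤ F.T →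
    (∀ x ∈ F.A, x ∉ F.Q1 → ∑ c ∈ F.b, KK (F.Gt r) x c ^ 2 ≤ F.L ∧
      ‖F.Gt r x x - F.G0 x x‖ ≤ F.δ) ∧
    ∀ x ∈ F.b, ∑ y ∈ F.Aᶜ, F.k r.1 y * KK (F.Gt r) x y ≤ F.δ
  /-- the flux to the old nodes, for all potentials -/
  hold : ∀ r : ℝ × (F.b → ℝ), 0 ≤ r.1 → r.1 ≤ F.T → ∀ c ∈ F.b,
    ∑ x ∈ F.A \ F.Yg, F.k r.1 x * KK (F.Gt r) x c ≤ F.old
  /-- the lower bound of the form at the start, dual form: all nodes of the box -/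
  hS1 : ∀ f φ : X → ℝ, (∀ x, x ∉ F.Q → f x = 0) → (∀ x, x ∉ F.Q → φ x = 0) →
    2 * ∑ x, f x * φ x - 2 * ∑ x ∈ F.Q, φ x ^ 2 / (F.k 0 x * F.g x) -
      F.s1 * (∑ x ∈ F.Q ∩ F.Yg, |φ x|) ^ 2 - F.s3 * (∑ x ∈ F.Q \ F.Yg, |φ x|) ^ 2 ≤ qf F.E0 f
  /-- the same, running sites of the box -/
  hS2 : ∀ f φ : X → ℝ, (∀ x, x ∉ F.Q → f x = 0) → (∀ x, x ∉ F.R → φ x = 0) →
    2 * ∑ x, f x * φ x - (1 + F.ε) * ∑ x ∈ F.R, φ x ^ 2 / (F.k 0 x * F.g x) -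
      F.s2 * (∑ x, |φ x|) ^ 2 ≤ qf F.E0 f
  /-- block Y -/
  hP : (∀ x, 0 ≤ F.P0 x) ∧ (∀ x, x ∉ F.U → F.P0 x = 0) ∧ (∀ x ∈ F.b, F.T ≤ F.P0 x) ∧
    ∀ x ∈ F.U, 2 * (F.P0 x * F.g x) ≤ F.k F.T x
  hw : (∀ x, 0 ≤ F.w x ∧ F.w x ≤ F.k F.T x) ∧ ∀ x, x ∉ F.Rg → F.w x = 0
  /-- numbers -/
  num : 0 < F.κv ∧ F.κv ≤ 1 ∧ 1 ≤ F.r ∧ 0 < c₀ ∧ c₀ ≤ 1 ∧ 1 ≤ C₀ ∧ 0 ≤ F.N ∧ 0 < F.δ ∧ 0 < F.L ∧
    0 < F.ω ∧ F.ω ≤ 1 / 2 ∧ 0 ≤ F.ε ∧ F.ε ≤ 1 ∧ 0 ≤ F.s1 ∧ 0 ≤ F.s2 ∧ 0 < F.ε₁ ∧ F.ε₁ ≤ 1 ∧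
    0 < F.δY ∧ 1 ≤ F.n ∧ F.n ≤ F.nL
  hs3 : 0 ≤ F.s3 ∧ 0 ≤ F.old
  hTv : F.T * C₀ ≤ F.κv ∧ 2 * F.r * F.T ≤ F.κv
  hδ : (F.N + 2) * F.δ ≤ c₀ / 2
  hz : 0 ≤ F.z ∧ 16 * F.μs ^ 4 * F.r ^ 3 ≤ F.z ^ 4 * (F.ω * F.L) * F.κv ^ 5
  hL0 : 1 ≤ F.L0 ∧ F.κv * (16 * F.sg C₀ + 2 * F.z) * F.L0 ≤ 1

/-- the conclusion -/
structure Good (V : F.b → ℝ) : Prop where
  ent : ∀ x ∈ F.Q1, ∀ y ∈ F.Q1, ‖F.Gt (F.T, V) x y - F.G0 x y‖ ≤ F.δ
  lam : ∀ x ∈ F.Q1, LaR (F.Gt (F.T, V)) F.R x ≤ LaR F.G0 F.R x + F.ω * F.L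
  yb : ∀ x ∈ F.Q1, x ∈ F.Rg → ‖vir (BB (F.Gt (F.T, V))) (F.Pf F.T) F.w x -
    vir (BB F.G0) F.P0 F.w x‖ ≤ F.δY
  yk : ∀ x ∈ F.Q1, x ∈ F.Rg → |vir (KK (F.Gt (F.T, V))) (F.Pf F.T) F.w x -
    vir (KK F.G0) F.P0 F.w x| ≤ F.δY
  frm : ∀ E1 : Matrix X X ℝ, LTG.Lad F.E0 E1 (F.lam F.T) → ∀ f : X → ℝ,
    (∀ x, x ∉ F.Q → f x = 0) → |qf (F.Et (F.T, V)) f - qf E1 f| ≤ 2 * F.ε₁ * qf E1 f

/-- a point of the run where the thresholds hold (consequences of the functional being less than one) -/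
structure Pt (q : ℝ × (F.b → ℝ)) : Prop where
  ht : 0 ≤ q.1 ∧ q.1 ≤ F.T
  ent : ∀ x ∈ F.Q1, ∀ y ∈ F.Q1, ‖F.Gt q x y - F.G0 x y‖ ≤ F.δ
  lam : ∀ x ∈ F.Q1, LaR (F.Gt q) F.R x ≤ LaR F.G0 F.R x + F.ω * F.L
  fru : ∀ f : X → ℝ, (∀ x, x ∉ F.Q → f x = 0) → |qf (F.Et q) f| ≤ 2 * qf F.E0 f
  /-- the lower bound of the form, with the clocks at the time `q.1` -/
  frl : ∀ f φ : X → ℝ, (∀ x, x ∉ F.Q → f x = 0) → (∀ x, x ∉ F.R → φ x = 0) →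
    2 * ∑ x, f x * φ x - (1 + F.ε) * ∑ x ∈ F.R, φ x ^ 2 / (F.k q.1 x * F.g x) -
      F.s2 * (∑ x, |φ x|) ^ 2 - F.ε₁ * qf F.E0 f ≤ qf (F.Et q) f

end Fl

/-- FLO: the block lemma -/
def FloStmt : Prop :=
  ∀ c₀ C₀ : ℝ, ∃ C : ℝ, 1 ≤ C ∧ ∀ (X : Type) [Fintype X] [DecidableEq X] (F : Fl X),
    F.Ok c₀ C₀ →
      (Measure.pi fun _ : F.b => gaussianReal 0 F.T.toNNReal) {V | ¬ F.Good V} ≤
        ENNReal.ofReal (F.pr c₀ C₀ C)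

end Pool.Agent.AFL
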