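import Pool.Agent.AFL.Defs

/-!
# The block lemma FLO of AND2B: rows

All rows are about one block update `F : Fl X` with `F.Ok c₀ C₀`. The final proof (rows SMT, FLO in
`Helper48_AFL`) uses `UflStmt` with the functional `u_G + u_Λ + u_Y + u_K + u_S`.
-/

set_option autoImplicit false

open MeasureTheory ProbabilityTheory

open scoped BigOperators Matrix

noncomputable section

namespace Pool.Agent.AFL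

open Pool.Agent.LE.QF Pool.Agent.AFJ Pool.Agent.ABY

/-- NET: the network at every point of the run. Proof: `BgjStmt` (`F.Gt = F.toBlk.G`, `F.k = F.toBlk.kp`). -/
def NetStmt : Prop :=
  JalStmt → JmaStmt → BgjStmt → ∀ (X : Type) [Fintype X] [DecidableEq X] (F : Fl X) (c₀ C₀ : ℝ)
    (q : ℝ × (F.b → ℝ)), F.Ok c₀ C₀ → 0 ≤ q.1 → q.1 ≤ F.T →
      BJ q F.Gt F.k (F.Gt q) (F.k q.1) F.mb ∧ Net (F.Gt q) (F.k q.1)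

/-- EUB: elementary facts about the form of a network. Proof: `(EE G κ A *ᵥ f) x = κ_x ∑_(y ∈ A) κ_y K_xy
(f_x - f_y)` for `x ∈ A`, zero off `A`; `qf (EE G κ A) f = (1/2) ∑_(x, y ∈ A) κ_x κ_y K_xy (f_x - f_y)²`.
(1) `(f_x - f_y)² ≤ 2 f_x² + 2 f_y²`. (2) Cauchy-Schwarz: `((E f) x)² ≤ κ_x ρ_x · κ_x D_x`,
`∑_(x ∈ A) κ_x D_x = 2 qf E f`. (3) expand the square. (4) `hw` with `z = x`. -/
def EubStmt : Prop :=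
  ∀ (X : Type) [Fintype X] [DecidableEq X] (G : Matrix X X ℂ) (κ : X → ℝ) (A b : Finset X)
    (f : X → ℝ), Net G κ → b ⊆ A →
    (EE G κ A)ᵀ = EE G κ A ∧ 0 ≤ qf (EE G κ A) f ∧
    qf (EE G κ A) f ≤ 2 * ∑ x ∈ A, κ x * rho G κ A x * f x ^ 2 ∧
    (∀ (k' : X → ℝ) (a : ℝ), 0 ≤ a → (∀ x ∈ b, 0 < k' x) →
      (∀ x ∈ b, κ x * rho G κ A x ≤ a * k' x ^ 2) →
        ∑ x ∈ b, ((EE G κ A *ᵥ f) x / k' x) ^ 2 ≤ 2 * a * qf (EE G κ A) f) ∧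
    ((∀ x, x ∉ A → f x = 0) → qf (KK G) (fun x => κ x * f x) =
      ∑ x ∈ A, κ x * rho G κ A x * f x ^ 2 - qf (EE G κ A) f) ∧
    ∀ x, rho G κ A x + ∑ y ∈ Aᶜ, κ y * KK G x y = (G x x).im

/-- PTA: numbers at a point. Proof: `kp` is affine in the time (`k t x = k T x + (T - t) g x` on `b`, constant
off `b`), `T C₀ ≤ κv`. The mismatch: `hmu` and `ent` on `Q1`, `loc` off `Q1` (`Rg ⊆ A`). `Im G_xx ≤ r` on `Q`: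
`him`. `∑_(c ∈ b) K_xc² ≤ Λ_x` (`b ⊆ R`), `≤ L/2 + L/2`. `ρ_x = Im G_xx - flux`, `EubStmt` (last part). -/
def PtaStmt : Prop :=
  EubStmt → ∀ (X : Type) [Fintype X] [DecidableEq X] (F : Fl X) (c₀ C₀ : ℝ) (q : ℝ × (F.b → ℝ)),
    F.Ok c₀ C₀ → F.Pt q → Net (F.Gt q) (F.k q.1) → Net F.G0 (F.k 0) →
    (∀ x ∈ F.Rg, F.κv ≤ F.k q.1 x) ∧ (∀ x ∈ F.A, F.k q.1 x ≤ F.k 0 x) ∧
    (∀ x ∈ F.A, F.k 0 x ≤ 2 * F.k q.1 x) ∧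
    (∀ x, F.k F.T x ≤ F.k q.1 x) ∧ (∀ x, x ∉ F.b → F.k q.1 x = F.k 0 x) ∧
    (∀ x ∈ F.Rg, ‖F.Gt q x x - F.mb x‖ ≤ F.μs) ∧
    (∀ x, ‖mub (F.Gt q) F.mb F.b x‖ ≤ F.μs) ∧
    (∀ x ∈ F.Q, (F.Gt q x x).im ≤ F.r ∧ (F.G0 x x).im ≤ F.r) ∧
    (∀ x ∈ F.Rg, (F.Gt q x x).im ≤ F.g x + F.μs ∧ (F.Gt q x x).im ≤ 3 / 2 * F.g x) ∧
    (∀ x ∈ F.Q1, LaR (F.Gt q) F.R x ≤ F.L) ∧
    (∀ x ∈ F.A, ∑ c ∈ F.b, KK (F.Gt q) x c ^ 2 ≤ F.L) ∧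
    (∀ x ∈ F.b, |rho (F.Gt q) (F.k q.1) F.A x - F.g x| ≤ (F.N + 2) * F.δ ∧
      rho (F.Gt q) (F.k q.1) F.A x ≤ F.r) ∧
    ∀ x ∈ F.Q, rho (F.Gt q) (F.k q.1) F.A x ≤ F.r ∧ rho F.G0 (F.k 0) F.A x ≤ F.r

/-- KUP: the bound of `K` on the running sites of the box. Proof: `f = u / κ`, supported in `R ⊆ Q ⊆ A`,
`κ = F.k q.1`; `EubStmt` (3) (for `G = F.Gt q`): `qf K u = ∑ κ ρ f² - qf (Et q) f`. `frl` with `φ = κ g f =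
g u`: `qf (Et q) f ≥ (1 - ε) ∑ κ g f² - s2 (∑ |g u|)² - ε₁ qf E0 f`, and `qf E0 f ≤ 2 ∑ k0 ρ0 f² ≤
4 r ∑ κ f²`. On `R`: `ρ ≤ Im G_xx ≤ g + μs`. `∑ κ f² = ∑ u²/κ ≤ ∑ u² / κv`. -/
def KupStmt : Prop :=
  EubStmt → PtaStmt → ∀ (X : Type) [Fintype X] [DecidableEq X] (F : Fl X) (c₀ C₀ : ℝ)
    (q : ℝ × (F.b → ℝ)), F.Ok c₀ C₀ → F.Pt q → Net (F.Gt q) (F.k q.1) → Net F.G0 (F.k 0) →
    ∀ u : X → ℝ, (∀ y, y ∉ F.R → u y = 0) →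
      qf (KK (F.Gt q)) u ≤ F.aK C₀ * ∑ y, u y ^ 2 + C₀ ^ 2 * F.s2 * (∑ y, |u y|) ^ 2

/-- NBL: the smooth part of the noise, `ℓ¹` form. Proof: as `NbsStmt`: `(∑_x |(Ec f)_x|)² ≤
4 (∑_(x ∈ A) κ_x |G_xc| |β_xc|)² ≤ 4 ρ_c ∑_(x ∈ A) κ_x |β_xc|²` (`BetStmt`), sum over `c ∈ b`:
`∑_(c ∈ b) |β_xc|² ≤ D_x / κv`, `∑_(x ∈ A) κ_x D_x = 2 qf EE f`. -/
def NblStmt : Prop :=
  BetStmt → ∀ (X : Type) [Fintype X] [DecidableEq X] (G : Matrix X X ℂ) (κ : X → ℝ)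
    (A b : Finset X) (f : X → ℝ) (κv r : ℝ), Net G κ → 0 < κv → 0 ≤ r →
    (∀ c ∈ b, κv ≤ κ c) → (∀ c ∈ b, rho G κ A c ≤ r) →
      ∑ c ∈ b, (∑ x ∈ A, |(Ec G κ A c *ᵥ f) x|) ^ 2 ≤ 8 * r / κv * qf (EE G κ A) f

/-- NBO: the same on a part `S` of the nodes with a small flux from `b`. Proof: as NBL, with
`∑_(x ∈ S) κ_x K_xc ≤ o` instead of `ρ_c ≤ r` (`β` is still summed over all of `A`). -/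
def NboStmt : Prop :=
  BetStmt → ∀ (X : Type) [Fintype X] [DecidableEq X] (G : Matrix X X ℂ) (κ : X → ℝ)
    (A b S : Finset X) (f : X → ℝ) (κv o : ℝ), Net G κ → 0 < κv → 0 ≤ o → S ⊆ A →
    (∀ c ∈ b, κv ≤ κ c) → (∀ c ∈ b, ∑ x ∈ S, κ x * KK G x c ≤ o) →
      ∑ c ∈ b, (∑ x ∈ S, |(Ec G κ A c *ᵥ f) x|) ^ 2 ≤ 8 * o / κv * qf (EE G κ A) f

/-- LTL: the triple sum, `ℓ¹` form. Proof: as `LatStmt`: `u = K_x. 1_R`, `∑ |u| ≤ r / κR`. -/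
def LtlStmt : Prop :=
  ∀ (X : Type) [Fintype X] [DecidableEq X] (G : Matrix X X ℂ) (κ : X → ℝ)
    (b R : Finset X) (x : X) (κR a r S0 : ℝ), Net G κ → b ⊆ R → 0 < κR →
    (∀ c ∈ R, κR ≤ κ c) → (∑ c ∈ R, κ c * KK G x c) ≤ r → 0 ≤ S0 →
    (∀ u : X → ℝ, (∀ y, y ∉ R → u y = 0) →
      qf (KK G) u ≤ a * ∑ y, u y ^ 2 + S0 * (∑ y, |u y|) ^ 2) →
      ∑ y ∈ R, ∑ c ∈ b, KK G x y * KK G x c * KK G c y ≤ a * LaR G R x + S0 * (r / κR) ^ 2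

/-- PTG: the entries. Proof: `BkjStmt` (3): `(- (G x c * G c y))_c`, `GD G μ x y`; `EnbStmt` with
`T = F.Q`, `R = F.b` (or `F.R`), `κR = κv`, `μ = mub G mb b`; `LaR G b x ≤ LaR G R x ≤ L`. -/
def PtgStmt : Prop :=
  JalStmt → BkjStmt → EnbStmt → EubStmt → PtaStmt → ∀ (X : Type) [Fintype X] [DecidableEq X]
    (F : Fl X) (c₀ C₀ : ℝ) (q : ℝ × (F.b → ℝ)), F.Ok c₀ C₀ → F.Pt q →
    BJ q F.Gt F.k (F.Gt q) (F.k q.1) F.mb → Net (F.Gt q) (F.k q.1) → Net F.G0 (F.k 0) →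
    ∀ x ∈ F.Q1, ∀ y ∈ F.Q1, ∃ (g' : F.b → ℂ) (l' : ℂ),
      HJ (fun r => F.Gt r x y - F.G0 x y) q (F.Gt q x y - F.G0 x y) g' l' ∧
      ‖l'‖ ≤ F.μs * F.r / F.κv ∧ ∑ c, ‖g' c‖ ^ 2 ≤ F.L

/-- PTL: the sums `Λ_x`, divided by `ℓ = Λ_x(0) + ω L`. Proof: `LajStmt` with `R = F.R`; the triple sum is at
most `aK Λ_x + C₀² s2 (r/κv)²` (`LtlStmt`, `KupStmt`); `(∑ K EK)^4 ≤ 16 Λ_x³ (μs r/κv)² (μs² r/κv³)`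
(`EnbStmt` (5), (4) with `T = F.Q`, `κR = κv`), so `|∑ K EK| ≤ z (1 + f) ℓ` with `f = Λ_x/ℓ` by `hz` (fourth
powers: `(z (1 + f) ℓ)^4 ≥ z^4 f³ ℓ^4 ≥ z^4 (ω L) Λ_x³`). Everything divided by `ℓ ≥ ω L`:
`l ≤ 6 (aK f + sg) + 2 z (1 + f)`, `∑ g² ≤ 16 f (aK f + sg)`. -/
def PtlStmt : Prop :=
  JalStmt → BkjStmt → EnbStmt → LajStmt → LtlStmt → EubStmt → PtaStmt → KupStmt →
    ∀ (X : Type) [Fintype X] [DecidableEq X] (F : Fl X) (c₀ C₀ : ℝ) (q : ℝ × (F.b → ℝ)),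
    F.Ok c₀ C₀ → F.Pt q → BJ q F.Gt F.k (F.Gt q) (F.k q.1) F.mb → Net (F.Gt q) (F.k q.1) →
    Net F.G0 (F.k 0) → ∀ x ∈ F.Q1, ∃ (g' : F.b → ℝ) (l' : ℝ),
      HJ (fun r => LaR (F.Gt r) F.R x / (LaR F.G0 F.R x + F.ω * F.L)) q
        (LaR (F.Gt q) F.R x / (LaR F.G0 F.R x + F.ω * F.L)) g' l' ∧
      l' ≤ 6 * (F.aK C₀ * (LaR (F.Gt q) F.R x / (LaR F.G0 F.R x + F.ω * F.L)) + F.sg C₀) +
        2 * F.z * (1 + LaR (F.Gt q) F.R x / (LaR F.G0 F.R x + F.ω * F.L)) ∧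
      ∑ c, g' c ^ 2 ≤ 16 * (LaR (F.Gt q) F.R x / (LaR F.G0 F.R x + F.ω * F.L)) *
        (F.aK C₀ * (LaR (F.Gt q) F.R x / (LaR F.G0 F.R x + F.ω * F.L)) + F.sg C₀)

/-- PTY: the pair of block Y. Proof: `VblStmt` with `R = F.Rg`, `U = F.U`, `P = F.Pf q.1`, `Pf = F.Pf`,
`Λ = F.L`, `μs = F.μs`; `YBl` from `Ok` and `PtaStmt` (`P ≤ P0`, `k T ≤ k q.1`). The second part (all
points where only the entries are close to the start) is needed for smoothness: the same with a large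
`Λ`: `hΛ` of `YBl` holds for `Λ = ∑_a ∑_c K_ac²`. -/
def PtyStmt : Prop :=
  JalStmt → JmaStmt → BkjStmt → EnbStmt → CmpStmt → VexStmt → TspStmt → VjtStmt → VgrStmt →
    VdrStmt → VblStmt → EubStmt → PtaStmt → ∀ c₀ C₀ : ℝ, ∃ C : ℝ, 1 ≤ C ∧
    ∀ (X : Type) [Fintype X] [DecidableEq X] (F : Fl X) (q : ℝ × (F.b → ℝ)), F.Ok c₀ C₀ →
    BJ q F.Gt F.k (F.Gt q) (F.k q.1) F.mb → Net (F.Gt q) (F.k q.1) → Net F.G0 (F.k 0) →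
    (F.Pt q → ∀ a ∈ F.Rg,
      (∃ (g' : F.b → ℂ) (l' : ℂ), HJ (fun r => vir (BB (F.Gt r)) (F.Pf r.1) F.w a) q
          (vir (BB (F.Gt q)) (F.Pf q.1) F.w a) g' l' ∧ ∑ c, ‖g' c‖ ^ 2 ≤ F.yn C ∧ ‖l'‖ ≤ F.yd C) ∧
      ∃ (g' : F.b → ℝ) (l' : ℝ), HJ (fun r => vir (KK (F.Gt r)) (F.Pf r.1) F.w a) q
          (vir (KK (F.Gt q)) (F.Pf q.1) F.w a) g' l' ∧ ∑ c, g' c ^ 2 ≤ F.yn C ∧ |l'| ≤ F.yd C) ∧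
    (0 ≤ q.1 → q.1 ≤ F.T → (∀ x ∈ F.Q1, ‖F.Gt q x x - F.G0 x x‖ ≤ F.δ) → ∀ a ∈ F.Rg,
      ContDiffAt ℝ 2 (fun r => vir (BB (F.Gt r)) (F.Pf r.1) F.w a) q ∧
      ContDiffAt ℝ 2 (fun r => vir (KK (F.Gt r)) (F.Pf r.1) F.w a) q)

/-- NUB: the noise of the form, in units of the form at the start. `W` is the inverse of `E0` on the box:
`qf W φ ≤ 2 ∑ f φ - qf E0 f` for some `f` supported in `Q` (namely `f = W φ`). Proof: `hS1` gives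
`qf W φ ≤ 2 ∑_(x ∈ Q) φ²/(k0 g) + s1 (∑_(Q ∩ Yg) |φ|)² + s3 (∑_(Q \ Yg) |φ|)²`; `1/(k0 g) ≤ 1/(c₀ κ)`,
`κ = F.k q.1`; `NbwStmt`, `NblStmt` and `NboStmt` (`S = A \ Yg`, `hold`), for `φ = 1_Q Ec f`, `Q ⊆ A`;
`qf (Et q) f ≤ 2 qf E0 f`. -/
def NubStmt : Prop :=
  BetStmt → NbwStmt → NblStmt → NboStmt → EubStmt → PtaStmt → ∀ (X : Type) [Fintype X] [DecidableEq X]
    (F : Fl X) (c₀ C₀ : ℝ) (q : ℝ × (F.b → ℝ)), F.Ok c₀ C₀ → F.Pt q →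
    Net (F.Gt q) (F.k q.1) → Net F.G0 (F.k 0) → ∀ W : (X → ℝ) → ℝ,
    (∀ φ : X → ℝ, (∀ x, x ∉ F.Q → φ x = 0) → ∃ f : X → ℝ, (∀ x, x ∉ F.Q → f x = 0) ∧
      W φ ≤ 2 * ∑ x, f x * φ x - qf F.E0 f) →
    ∀ f : X → ℝ, (∀ x, x ∉ F.Q → f x = 0) →
      ∑ c ∈ F.b, W (fun x => if x ∈ F.Q then (Ec (F.Gt q) (F.k q.1) F.A c *ᵥ f) x else 0) ≤
        F.nu c₀ * qf F.E0 f

/-- DRB: the error of the drift and the size of the ladder rate. Proof: `DreStmt` with `δ = (N + 2) δ`,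
`μs`, then `qf (Et q) f ≤ 2 qf E0 f`. (2) `EubStmt` (2) at the start with `k' = F.k q.1`,
`a = 2 r / κv`: `k0 ρ0 ≤ 2 κ r ≤ (2 r/κv) κ²`. (3) `lam t x = t / (κ_t κ_0)` on `b`, `qf E0 f ≤ 2 r ∑ k0 f²`,
Young: `2 ∑ f φ - 2 r ∑_Q k0 f²` is maximal at `f = φ/(2 r k0)`; `2 r T ≤ κv`. -/
def DrbStmt : Prop :=
  BetStmt → DreStmt → EubStmt → PtaStmt → ∀ (X : Type) [Fintype X] [DecidableEq X]
    (F : Fl X) (c₀ C₀ : ℝ) (q : ℝ × (F.b → ℝ)), F.Ok c₀ C₀ →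
    Net (F.Gt q) (F.k q.1) → Net F.G0 (F.k 0) →
    (F.Pt q → ∀ f : X → ℝ, (∀ x, x ∉ F.Q → f x = 0) →
      |qf (Dl (ee (F.Gt q) (F.k q.1) F.g (mub (F.Gt q) F.mb F.b) F.A F.b)) f| ≤
        2 * ((2 * ((F.N + 2) * F.δ) + 4 * F.μs) / F.κv) * qf F.E0 f) ∧
    (0 ≤ q.1 → q.1 ≤ F.T → ∀ f : X → ℝ,
      ∑ x ∈ F.b, ((F.E0 *ᵥ f) x / F.k q.1 x) ^ 2 ≤ 4 * F.r / F.κv * qf F.E0 f) ∧
    (0 ≤ q.1 → q.1 ≤ F.T → (∀ x, 0 ≤ F.lam q.1 x) ∧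
      ∀ φ : X → ℝ, (∀ x, x ∉ F.Q → φ x = 0) → ∃ f : X → ℝ, (∀ x, x ∉ F.Q → f x = 0) ∧
        ∑ x, F.lam q.1 x * φ x ^ 2 ≤ 2 * ∑ x, f x * φ x - qf F.E0 f)

end Pool.Agent.AFL
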